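import Pool.Agent.helper66.SL.SpecA

/-! Row COR: arbitrary values on the walls of a tope extend. -/

set_option autoImplicit false

namespace Pool.Agent.helper66.SL

open Pool.Agent.helper52.FC

theorem COR_proof (hGAT : GAT) (hPHI : PHI) (hBAL : BAL) (hEWD : EWD) : COR := by
  intro E _ L F hG hCD hHF B hB a0
  obtain ⟨a, ha0, ha⟩ := hBAL E L F hG hCD hHF B hB a0 (Nat.card E)
  have hd : ∀ S : E → SignType, dist B S ≤ Nat.card E := by
    intro S
    unfold dist
    rw [← Set.ncard_univ]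
    exact Set.ncard_le_ncard (Set.subset_univ _) (Set.toFinite _)
  have hcomp : ∀ S, IsTope L S → ∀ e, Wall L S e → Comp L F S e (a S) (a (fl S e)) :=
    fun S hS e he => ha S hS (hd S) e he (hd _)
  have hw : ∀ e, ∃ T, IsTope L T ∧ Wall L T e := by
    intro e
    obtain ⟨T, hT, -, hw⟩ := hGAT E L hG.om hG.simple (fun _ => 0) hG.om.zero e rfl
    exact ⟨T, hT, hw⟩
  choose T hT hTw using hw
  refine ⟨fun e => a (T e) e, ?_, ?_⟩
  · intro Z hZ
    obtain ⟨f', hf', h⟩ := hPHI E L F hG hCD Z hZ a (fun S hS _ e he _ => hcomp S hS e he)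
    refine hCD.loc Z hZ f' hf' _ ?_
    intro g hg
    obtain ⟨R, hR, hZR, hRw⟩ := hGAT E L hG.om hG.simple Z hZ.1 g hg
    change a (T g) g = f' g
    rw [hEWD E L F hG hCD a hcomp (T g) R (hT g) hR g (hTw g) hRw]
    exact h R hR hZR g hRw hg
  · intro i hi
    change a (T i) i = a0 i
    rw [hEWD E L F hG hCD a hcomp (T i) B (hT i) hB i (hTw i) hi]
    exact ha0 i hi

end Pool.Agent.helper66.SL
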