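import Pool.Agent.helper66.SL.SpecB

/-! Row LFC: the rank two data in the localization. -/

set_option autoImplicit false

namespace Pool.Agent.helper66.SL

open Pool.Agent.helper52.FC

theorem LFC_proof (hLTP : LTP) (hLWL : LWL) : LFC := by
  intro E _ L hom hsim X hX Z hZ hXZ f' f hf hf'
  have hzero : ∀ e, Z e = 0 → X e = 0 := by
    intro e he
    rcases hXZ e with h | h
    · exact h
    · rw [h, he]
  intro T hT hZT a b c hab hca hcb hwa hwb ha hb hc
  have hXT : Le X T := by
    intro e
    rcases hXZ e with h | h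
    · exact Or.inl h
    · rcases hZT e with h1 | h1
      · left
        rw [h, h1]
      · right
        rw [h, h1]
  have hT' : IsTope (Loc L X) (fun g : {e : E // X e = 0} => T g.1) :=
    (hLTP E L hom hsim X hX _).2 ⟨T, hT, hXT, fun e => rfl⟩
  have key := hf' (fun g : {e : E // X e = 0} => T g.1) hT' (fun e => hZT e.1) ⟨a, hzero a ha⟩
    ⟨b, hzero b hb⟩ ⟨c, hzero c hc⟩ (fun h => hab (congrArg Subtype.val h))
    (fun h => hca (congrArg Subtype.val h)) (fun h => hcb (congrArg Subtype.val h))
    ((hLWL E L hom hsim X hX T hT hXT ⟨a, hzero a ha⟩).2 hwa)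
    ((hLWL E L hom hsim X hX T hT hXT ⟨b, hzero b hb⟩).2 hwb) ha hb hc
  rw [← hf, ← hf, ← hf] at key
  exact key

end Pool.Agent.helper66.SL
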