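import Pool.Agent.helper66.SL.SpecB

/-! Row UCD: the rank two data of a local system. -/

set_option autoImplicit false

namespace Pool.Agent.helper66.SL

open Pool.Agent.helper52.FC

theorem UCD_riesz (ψ : EuclideanSpace ℝ (Fin 3) →ₗ[ℝ] ℝ) :
    ∃ x : EuclideanSpace ℝ (Fin 3), ∀ w, ψ w = inner ℝ w x := by
  refine ⟨(InnerProductSpace.toDual ℝ (EuclideanSpace ℝ (Fin 3))).symm (LinearMap.toContinuousLinearMap ψ),
    fun w => ?_⟩
  rw [real_inner_comm, InnerProductSpace.toDual_symm_apply]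
  rfl

theorem UCD_sign (s : SignType) (r : ℝ) : 0 < (s : ℝ) * r ↔ (s ≠ 0 ∧ SignType.sign r = s) := by
  cases s with
  | zero => simp
  | neg =>
    have : ((SignType.neg : SignType) : ℝ) = -1 := rfl
    rw [this]
    constructor
    · intro h
      exact ⟨by decide, sign_neg (by linarith)⟩
    · rintro ⟨-, h⟩
      have := sign_eq_neg_one_iff.1 h
      linarith
  | pos =>
    have : ((SignType.pos : SignType) : ℝ) = 1 := rfl
    rw [this]
    constructor
    · intro h
      exact ⟨by decide, sign_pos (by linarith)⟩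
    · rintro ⟨-, h⟩
      have := sign_eq_one_iff.1 h
      linarith

theorem UCD_rel {E : Type} {L : Set (E → SignType)} {u : E → E → E → E → EuclideanSpace ℝ (Fin 3)}
    (hu : Local L u) (a b c : E) (x : EuclideanSpace ℝ (Fin 3)) :
    ∃ Y ∈ L, ∀ g, Cl3 L a b c g → Y g = SignType.sign (inner ℝ (u a b c g) x) := by
  have h1 : (fun g : {g // Cl3 L a b c g} => SignType.sign (inner ℝ (u a b c g) x)) ∈
      arr (fun g : {g // Cl3 L a b c g} => u a b c g) := ⟨x, fun g => rfl⟩
  rw [← hu.real a b c] at h1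
  obtain ⟨Y, hY, h⟩ := h1
  exact ⟨Y, hY, fun g hg => (h ⟨g, hg⟩).symm⟩

theorem UCD_rel' {E : Type} {L : Set (E → SignType)} {u : E → E → E → E → EuclideanSpace ℝ (Fin 3)}
    (hu : Local L u) (a b c : E) {T : E → SignType} (hT : T ∈ L) :
    ∃ x : EuclideanSpace ℝ (Fin 3), ∀ g, Cl3 L a b c g → T g = SignType.sign (inner ℝ (u a b c g) x) := by
  have h1 : (fun g : {g // Cl3 L a b c g} => T g.1) ∈ restr L (fun g => Cl3 L a b c g) := ⟨T, hT, fun g => rfl⟩
  rw [hu.real a b c] at h1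
  obtain ⟨x, h⟩ := h1
  exact ⟨x, fun g hg => h ⟨g, hg⟩⟩

/-- Signs of a realized vector with the signs of `T` at the two walls. -/
theorem UCD_key (hGEO : GEO) {E : Type} [Finite E] {L : Set (E → SignType)}
    {u : E → E → E → E → EuclideanSpace ℝ (Fin 3)} (hG : Good L) (hu : Local L u) {Z : E → SignType}
    (hZ : Cork L Z 2) {T : E → SignType} (hT : IsTope L T) (hZT : Le Z T) {i j : E} (hij : i ≠ j)
    (hwi : Wall L T i) (hwj : Wall L T j) (hi : Z i = 0) (hj : Z j = 0)
    (hfl : ∀ g, Z g = 0 ↔ Cl2 L i j g) (x : EuclideanSpace ℝ (Fin 3))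
    (hxi : SignType.sign (inner ℝ (u i j j i) x) = T i) (hxj : SignType.sign (inner ℝ (u i j j j) x) = T j) :
    ∀ g, Z g = 0 → SignType.sign (inner ℝ (u i j j g) x) = 0 ∨ SignType.sign (inner ℝ (u i j j g) x) = T g := by
  intro g hg
  have h3 : ∀ g, Z g = 0 → Cl3 L i j j g := fun g h X hX h1 h2 _ => (hfl g).1 h X hX h1 h2
  have hs : ∀ e, T e ≠ 0 := tope_supp hG.om hG.simple hT
  obtain ⟨Y, hY, hYs⟩ := UCD_rel hu i j j x
  have hYi : Y i = T i := by rw [hYs i (h3 i hi), hxi]
  have hYj : Y j = T j := by rw [hYs j (h3 j hj), hxj]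
  have hT1 : cmp Z (cmp Y T) = T := by
    by_contra hne
    have hmem : cmp Z (cmp Y T) ∈ L := hG.om.comp _ hZ.1 _ (hG.om.comp _ hY _ hT.1)
    have htope : IsTope L (cmp Z (cmp Y T)) := by
      refine tope_of hmem fun e => ?_
      by_cases h1 : Z e = 0
      · rw [cmp_pos h1]
        by_cases h2 : Y e = 0
        · rw [cmp_pos h2]
          exact hs e
        · rw [cmp_neg h2]
          exact h2
      · rw [cmp_neg h1]
        exact h1
    obtain ⟨e, hwe, hne'⟩ := hGEO E L hG.om hG.simple T _ hT htope (Ne.symm hne)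
    have hZe : Z e = 0 := by
      by_contra h0
      apply hne'
      rw [cmp_neg h0]
      rcases hZT e with h1 | h1
      · exact absurd h1 h0
      · exact h1.symm
    have hcard := hZ.2 T hT hZT
    have hsub : ({i, j} : Set E) ⊆ {e | Wall L T e ∧ Z e = 0} := by
      intro k hk
      rcases hk with rfl | rfl
      · exact ⟨hwi, hi⟩
      · exact ⟨hwj, hj⟩
    have heq : ({i, j} : Set E) = {e | Wall L T e ∧ Z e = 0} := by
      refine Set.eq_of_subset_of_ncard_le hsub ?_ (Set.toFinite _)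
      rw [hcard, Set.ncard_pair hij]
    have he : e ∈ ({i, j} : Set E) := by
      rw [heq]
      exact ⟨hwe, hZe⟩
    apply hne'
    rw [cmp_pos hZe]
    rcases he with rfl | rfl
    · rw [cmp_neg (by rw [hYi]; exact hs _), hYi]
    · rw [cmp_neg (by rw [hYj]; exact hs _), hYj]
  rw [← hYs g (h3 g hg)]
  by_cases h0 : Y g = 0
  · exact Or.inl h0
  · right
    have := congrFun hT1 g
    rw [cmp_pos hg, cmp_neg h0] at this
    exact this

theorem UCD_proof (hGEO : GEO) (hCLO : CLO) (hUZC : UZC) (hUEX : UEX) : UCD := by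
  intro E _ L u hG hu
  have hfl : ∀ Z, Cork L Z 2 → ∀ T, IsTope L T → Le Z T → ∀ i j, i ≠ j → Wall L T i → Wall L T j →
      Z i = 0 → Z j = 0 → ∀ g, (Z g = 0 ↔ Cl2 L i j g) := (hUZC E L hG).1
  refine ⟨?_, ?_, ?_, ?_⟩
  · intro Z hZ f hf f' hff' a b c habc
    obtain ⟨ψ, hψ⟩ := hf a b c habc
    exact ⟨ψ, fun g hg => by rw [hff' g hg, hψ g hg]⟩
  · intro Z hZ T hT hZT i j hij hwi hwj hi hj x y
    classical
    have hfl' := hfl Z hZ T hT hZT i j hij hwi hwj hi hj
    have h3 : ∀ g, Cl2 L i j g → Cl3 L i j j g := fun g h X hX h1 h2 _ => h X hX h1 h2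
    obtain ⟨ψ, hψ⟩ := hUEX E L u hG hu i j j T hT {i, j} (by
      intro g hg
      rcases hg with rfl | rfl
      · exact ⟨hwi, fun X hX h1 _ _ => h1⟩
      · exact ⟨hwj, fun X hX _ h1 _ => h1⟩) (fun e => if e = i then x else y)
    refine ⟨fun g => ψ (u i j j g), ?_, ?_, ?_⟩
    · intro a b c habc
      obtain ⟨A, hA⟩ := hu.compat a b c i j j i j (fun g hg => ⟨habc g ((hfl' g).2 hg), h3 g hg⟩)
      refine ⟨ψ.comp A, fun g hg => ?_⟩
      rw [LinearMap.comp_apply, hA g ((hfl' g).1 hg)]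
    · have := hψ i (Or.inl rfl)
      exact this.trans (if_pos rfl)
    · have := hψ j (Or.inr rfl)
      exact this.trans (if_neg hij.symm)
  · intro Z hZ T hT hZT i j hij hwi hwj hi hj f hf hfi hfj g hg
    have hfl' := hfl Z hZ T hT hZT i j hij hwi hwj hi hj
    have h3 : ∀ g, Z g = 0 → Cl3 L i j j g := fun g h X hX h1 h2 _ => (hfl' g).1 h X hX h1 h2
    obtain ⟨ψ, hψ⟩ := hf i j j h3
    obtain ⟨x, hx⟩ := UCD_riesz ψ
    obtain ⟨Y, hY, hYs⟩ := UCD_rel hu i j j x
    have hYf : ∀ g, Z g = 0 → Y g = SignType.sign (f g) := by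
      intro g hg
      rw [hYs g (h3 g hg), hψ g hg, hx]
    have h0 : Y g = 0 := (hfl' g).1 hg Y hY (by rw [hYf i hi, hfi, sign_zero]) (by rw [hYf j hj, hfj, sign_zero])
    rw [hYf g hg, sign_eq_zero_iff] at h0
    exact h0
  · intro Z hZ T hT hZT i j hij hwi hwj hi hj f hf hfi hfj g hg
    have hfl' := hfl Z hZ T hT hZT i j hij hwi hwj hi hj
    have h3 : ∀ g, Z g = 0 → Cl3 L i j j g := fun g h X hX h1 h2 _ => (hfl' g).1 h X hX h1 h2
    have hs : ∀ e, T e ≠ 0 := tope_supp hG.om hG.simple hT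
    obtain ⟨ψ, hψ⟩ := hf i j j h3
    obtain ⟨x, hx⟩ := UCD_riesz ψ
    obtain ⟨xT, hxT⟩ := UCD_rel' hu i j j hT.1
    have hfx : ∀ g, Z g = 0 → f g = inner ℝ (u i j j g) x := fun g hg => by rw [hψ g hg, hx]
    have hi' := (UCD_sign (T i) (f i)).1 hfi
    have hj' := (UCD_sign (T j) (f j)).1 hfj
    rw [UCD_sign]
    refine ⟨hs g, ?_⟩
    have key := UCD_key hGEO hG hu hZ hT hZT hij hwi hwj hi hj hfl'
    rw [hfx i hi] at hfi hi'
    rw [hfx j hj] at hfj hj'
    rw [hfx g hg]
    rcases key x hi'.2 hj'.2 g hg with h0 | h0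
    · exfalso
      rw [sign_eq_zero_iff] at h0
      have hBi : 0 < (T i : ℝ) * inner ℝ (u i j j i) xT := (UCD_sign _ _).2 ⟨hs i, (hxT i (h3 i hi)).symm⟩
      have hBj : 0 < (T j : ℝ) * inner ℝ (u i j j j) xT := (UCD_sign _ _).2 ⟨hs j, (hxT j (h3 j hj)).symm⟩
      have hBg : 0 < (T g : ℝ) * inner ℝ (u i j j g) xT := (UCD_sign _ _).2 ⟨hs g, (hxT g (h3 g hg)).symm⟩
      set Ai : ℝ := (T i : ℝ) * inner ℝ (u i j j i) x with hAi
      set Aj : ℝ := (T j : ℝ) * inner ℝ (u i j j j) x with hAj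
      set Bi : ℝ := (T i : ℝ) * inner ℝ (u i j j i) xT with hBi'
      set Bj : ℝ := (T j : ℝ) * inner ℝ (u i j j j) xT with hBj'
      set M : ℝ := Bi / Ai + Bj / Aj + 1 with hM
      have hMi : 0 < M * Ai - Bi := by
        have e1 : M * Ai = Bi + (Bj / Aj) * Ai + Ai := by
          rw [hM]
          field_simp
        have e2 : 0 < (Bj / Aj) * Ai := mul_pos (div_pos hBj hfj) hfi
        rw [e1]
        linarith
      have hMj : 0 < M * Aj - Bj := by
        have e1 : M * Aj = Bj + (Bi / Ai) * Aj + Aj := by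
          rw [hM]
          field_simp
          ring
        have e2 : 0 < (Bi / Ai) * Aj := mul_pos (div_pos hBi hfi) hfj
        rw [e1]
        linarith
      have hip : ∀ w : EuclideanSpace ℝ (Fin 3), inner ℝ w (M • x - xT) = M * inner ℝ w x - inner ℝ w xT := by
        intro w
        rw [inner_sub_right, inner_smul_right]
      have k1 : 0 < (T i : ℝ) * inner ℝ (u i j j i) (M • x - xT) := by
        rw [hip]
        have : (T i : ℝ) * (M * inner ℝ (u i j j i) x - inner ℝ (u i j j i) xT) = M * Ai - Bi := by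
          rw [hAi, hBi']
          ring
        rw [this]
        exact hMi
      have k2 : 0 < (T j : ℝ) * inner ℝ (u i j j j) (M • x - xT) := by
        rw [hip]
        have : (T j : ℝ) * (M * inner ℝ (u i j j j) x - inner ℝ (u i j j j) xT) = M * Aj - Bj := by
          rw [hAj, hBj']
          ring
        rw [this]
        exact hMj
      have k3 : 0 < (T g : ℝ) * (-inner ℝ (u i j j g) (M • x - xT)) := by
        rw [hip, h0]
        have : (T g : ℝ) * -(M * 0 - inner ℝ (u i j j g) xT) = (T g : ℝ) * inner ℝ (u i j j g) xT := by ring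
        rw [this]
        exact hBg
      have k3' := ((UCD_sign _ _).1 k3).2
      rw [Left.sign_neg] at k3'
      have k4 : SignType.sign (inner ℝ (u i j j g) (M • x - xT)) = -T g := by
        rw [← k3', neg_neg]
      rcases key (M • x - xT) ((UCD_sign _ _).1 k1).2 ((UCD_sign _ _).1 k2).2 g hg with h1 | h1
      · rw [k4] at h1
        apply hs g
        rw [← neg_neg (T g), h1]
        rfl
      · rw [k4] at h1
        exact hs g (sneg h1.symm rfl)
    · exact h0

end Pool.Agent.helper66.SL
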