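import Pool.Agent.helper66.SL.SpecB

/-! Row ULC: a realization gives a local system. -/

set_option autoImplicit false

namespace Pool.Agent.helper66.SL

open Pool.Agent.helper52.FC

/-- The span of three vectors, as the range of a linear map. -/
noncomputable def ULC_b {d : ℕ} (p q r : EuclideanSpace ℝ (Fin d)) :
    EuclideanSpace ℝ (Fin 3) →ₗ[ℝ] EuclideanSpace ℝ (Fin d) where
  toFun y := y 0 • p + y 1 • q + y 2 • r
  map_add' x y := by
    simp only [PiLp.add_apply, add_smul]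
    abel
  map_smul' c x := by
    simp only [PiLp.smul_apply, smul_eq_mul, mul_smul, smul_add, RingHom.id_apply]

theorem ULC_left {d : ℕ} (β : EuclideanSpace ℝ (Fin 3) →ₗ[ℝ] EuclideanSpace ℝ (Fin d)) :
    ∃ α : EuclideanSpace ℝ (Fin d) →ₗ[ℝ] EuclideanSpace ℝ (Fin 3), ∀ s ∈ LinearMap.range β, β (α s) = s := by
  obtain ⟨g, hg⟩ := LinearMap.exists_rightInverse_of_surjective β.rangeRestrict (LinearMap.range_rangeRestrict β)
  obtain ⟨α, hα⟩ := LinearMap.exists_extend g
  refine ⟨α, fun s hs => ?_⟩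
  have e1 : α s = g ⟨s, hs⟩ := by
    rw [← hα]
    rfl
  have e2 : β.rangeRestrict (g ⟨s, hs⟩) = ⟨s, hs⟩ := by
    have := LinearMap.congr_fun hg ⟨s, hs⟩
    exact this
  rw [e1]
  exact congrArg Subtype.val e2

theorem ULC_mem {E : Type} {d : ℕ} (v : E → EuclideanSpace ℝ (Fin d)) (a b c g : E)
    (h : Cl3 (arr v) a b c g) : v g ∈ LinearMap.range (ULC_b (v a) (v b) (v c)) := by
  set S := LinearMap.range (ULC_b (v a) (v b) (v c)) with hS
  have h1 : Sᗮᗮ = S := Submodule.orthogonal_orthogonal S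
  rw [← h1, Submodule.mem_orthogonal]
  intro x hx
  have hm : ∀ w ∈ S, inner ℝ w x = 0 := (Submodule.mem_orthogonal S x).1 hx
  have ha : inner ℝ (v a) x = 0 := by
    refine hm _ ⟨EuclideanSpace.single 0 1, ?_⟩
    simp [ULC_b]
  have hb : inner ℝ (v b) x = 0 := by
    refine hm _ ⟨EuclideanSpace.single 1 1, ?_⟩
    simp [ULC_b]
  have hc : inner ℝ (v c) x = 0 := by
    refine hm _ ⟨EuclideanSpace.single 2 1, ?_⟩
    simp [ULC_b]
  have := h (fun e => SignType.sign (inner ℝ (v e) x)) ⟨x, fun e => rfl⟩ (by simp [ha]) (by simp [hb]) (by simp [hc])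
  rw [sign_eq_zero_iff] at this
  rw [real_inner_comm]
  exact this

theorem ULC_proof : ULC := by
  intro E _ d v
  have hα : ∀ a b c : E, ∃ α : EuclideanSpace ℝ (Fin d) →ₗ[ℝ] EuclideanSpace ℝ (Fin 3),
      ∀ s ∈ LinearMap.range (ULC_b (v a) (v b) (v c)), ULC_b (v a) (v b) (v c) (α s) = s :=
    fun a b c => ULC_left _
  choose α hα using hα
  refine ⟨fun a b c g => α a b c (v g), ⟨?_, ?_⟩⟩
  · intro a b c
    ext Y
    constructor
    · rintro ⟨X, ⟨x, hx⟩, hY⟩
      refine ⟨LinearMap.adjoint (ULC_b (v a) (v b) (v c)) x, fun e => ?_⟩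
      rw [hY e, hx e.1, LinearMap.adjoint_inner_right, hα a b c _ (ULC_mem v a b c e.1 e.2)]
    · rintro ⟨y, hy⟩
      refine ⟨fun e => SignType.sign (inner ℝ (v e) (LinearMap.adjoint (α a b c) y)), ⟨_, fun e => rfl⟩, fun e => ?_⟩
      rw [hy e]
      change SignType.sign (inner ℝ ((α a b c) (v e.1)) y) = SignType.sign (inner ℝ (v e.1) (LinearMap.adjoint (α a b c) y))
      rw [LinearMap.adjoint_inner_right]
  · intro a b c a' b' c' p q h
    refine ⟨(α a' b' c').comp (ULC_b (v a) (v b) (v c)), fun g hg => ?_⟩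
    rw [LinearMap.comp_apply, hα a b c _ (ULC_mem v a b c g (h g hg).1)]

end Pool.Agent.helper66.SL
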